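import Pool.Agent.W78.GR.Basic
import Pool.Agent.W322.GA.Red

/-!
Project GR (GR-3): reduction theory for the ideals `{z : d ∣ x + r y}` of the real quadratic order.
-/

set_option autoImplicit false

namespace Pool.Agent.W880.GR

open Finset Filter
open Pool.Agent.H376R2.MR
open Pool.Agent.W78.GR
open Pool.Agent.W322.GA (el el_lat eq_el natCast_mul_re natCast_mul_im intCast_mul_re
  intCast_mul_im el_comb comb_re comb_im QQ)

variable {t c : ℤ}

lemma nm_el {d : ℕ} {r e : ℤ} (he : r ^ 2 - t * r + c = d * e) (m y : ℤ) :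
    nm (el t c d r m y) = d * (QQ t d r e m y).natAbs := by
  have h : ((el t c d r m y).re ^ 2 + t * (el t c d r m y).re * (el t c d r m y).im +
      c * (el t c d r m y).im ^ 2) = d * QQ t d r e m y := by
    unfold el QQ
    linear_combination y ^ 2 * he
  unfold nm
  rw [h, Int.natAbs_mul, Int.natAbs_natCast]

lemma s1s2_el (hD : 4 * c < t ^ 2) {d : ℕ} {r e : ℤ} (he : r ^ 2 - t * r + c = d * e) (m y : ℤ) :
    s1 (el t c d r m y) * s2 (el t c d r m y) = ((d * QQ t d r e m y : ℤ) : ℝ) := by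
  rw [s1_mul_s2 hD]
  have h : ((el t c d r m y).re ^ 2 + t * (el t c d r m y).re * (el t c d r m y).im +
      c * (el t c d r m y).im ^ 2) = d * QQ t d r e m y := by
    unfold el QQ
    linear_combination y ^ 2 * he
  rw [← h]
  push_cast
  ring

/-- the key identity of the reduction: the second vector -/
lemma key_id {d : ℕ} {r e m₁ y₁ m₂ y₂ : ℤ} (he : r ^ 2 - t * r + c = d * e)
    (hdet : m₁ * y₂ - m₂ * y₁ = 1) {A s₀ : ℤ} (hA : A = QQ t d r e m₁ y₁)
    (hs₀ : s₀ = -(d * m₁ * m₂ - r * m₁ * y₂ + (t - r) * m₂ * y₁ + e * y₁ * y₂)) (k : ℤ) :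
    (s₀ + k * A) ^ 2 - t * (s₀ + k * A) + c =
      A * QQ t d r e (m₂ - k * m₁) (y₂ - k * y₁) := by
  have h0 : s₀ ^ 2 - t * s₀ + c = A * QQ t d r e m₂ y₂ := by
    rw [hs₀, hA]
    unfold QQ
    linear_combination (m₁ * y₂ - m₂ * y₁) ^ 2 * he -
      (t * (d * m₁ * m₂ - r * m₁ * y₂ + (t - r) * m₂ * y₁ + e * y₁ * y₂) +
        c * (1 + (m₁ * y₂ - m₂ * y₁))) * hdet
  have h1 : A * QQ t d r e (m₂ - k * m₁) (y₂ - k * y₁) - A * QQ t d r e m₂ y₂ =
      A * (k ^ 2 * A - k * (2 * d * m₁ * m₂ + (t - 2 * r) * (m₁ * y₂ + m₂ * y₁) +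
        2 * e * y₁ * y₂)) := by
    rw [hA]
    unfold QQ
    ring
  have h2 : 2 * d * m₁ * m₂ + (t - 2 * r) * (m₁ * y₂ + m₂ * y₁) + 2 * e * y₁ * y₂ =
      t - 2 * s₀ := by
    rw [hs₀]
    linear_combination t * hdet
  rw [h2] at h1
  linear_combination h0 - h1

/-- a primitive vector with small positive value -/
lemma exists_small (hD : 4 * c < t ^ 2) (hns : ¬ IsSquare (t ^ 2 - 4 * c)) {d : ℕ} {r e : ℤ}
    (hd : 1 ≤ d) (he : r ^ 2 - t * r + c = d * e) :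
    ∃ m₁ y₁ m₂ y₂ : ℤ, m₁ * y₂ - m₂ * y₁ = 1 ∧ 0 < QQ t d r e m₁ y₁ ∧
      QQ t d r e m₁ y₁ ≤ t ^ 2 - 4 * c := by
  have hdz : (0 : ℤ) < d := by exact_mod_cast hd
  -- minimal nonzero norm
  have hex : ∃ n : ℕ, ∃ z : Qd t c, z ≠ 0 ∧ lat d r z ∧ nm z = n :=
    ⟨nm (d : Qd t c), (d : Qd t c), by
      intro h
      have := congrArg nm h
      rw [nm_natCast, nm_zero] at this
      have : 0 < d ^ 2 := by positivity
      omega, by unfold lat; simp, rfl⟩
  classical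
  obtain ⟨z₁, hz0, hz1, hzn⟩ := Nat.find_spec hex
  have hmin : ∀ z : Qd t c, z ≠ 0 → lat d r z → nm z₁ ≤ nm z := by
    intro z h1 h2
    rw [hzn]
    exact Nat.find_min' hex ⟨z, h1, h2, rfl⟩
  obtain ⟨m₁, hm₁⟩ := eq_el hz1
  set y₁ := z₁.im with hy₁
  -- primitivity
  have hcop : Int.gcd m₁ y₁ = 1 := by
    by_contra hne
    have hg0 : Int.gcd m₁ y₁ ≠ 0 := by
      intro h
      rw [Int.gcd_eq_zero_iff] at h
      apply hz0
      rw [hm₁, h.1, h.2]
      apply QuadraticAlgebra.ext <;> simp [el]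
    set g := Int.gcd m₁ y₁ with hg
    obtain ⟨a, ha⟩ : (g : ℤ) ∣ m₁ := Int.gcd_dvd_left _ _
    obtain ⟨b, hb⟩ : (g : ℤ) ∣ y₁ := Int.gcd_dvd_right _ _
    have e1 : z₁ = (g : Qd t c) * el t c d r a b := by
      rw [hm₁]
      apply QuadraticAlgebra.ext
      · rw [natCast_mul_re]
        show (d : ℤ) * m₁ - r * y₁ = g * (d * a - r * b)
        rw [ha, hb]; ring
      · rw [natCast_mul_im]
        show y₁ = g * b
        exact hb
    have e2 : el t c d r a b ≠ 0 := by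
      intro h
      rw [h, mul_zero] at e1
      exact hz0 e1
    have e3 := hmin _ e2 (el_lat d r a b)
    rw [e1, nm_mul, nm_natCast] at e3
    have e4 : 0 < nm (el t c d r a b) := by
      rw [Nat.pos_iff_ne_zero, ne_eq, nm_eq_zero hns]
      exact e2
    have e5 : 2 ≤ g := by omega
    have e6 : 4 ≤ g ^ 2 := by nlinarith
    have e7 : 4 * nm (el t c d r a b) ≤ g ^ 2 * nm (el t c d r a b) := Nat.mul_le_mul_right _ e6
    omega
  -- Bezout
  obtain ⟨m₂, y₂, hdet⟩ : ∃ m₂ y₂ : ℤ, m₁ * y₂ - m₂ * y₁ = 1 := by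
    have h := Int.gcd_eq_gcd_ab m₁ y₁
    rw [hcop] at h
    exact ⟨-Int.gcdB m₁ y₁, Int.gcdA m₁ y₁, by push_cast at h; linarith⟩
  set A : ℤ := QQ t d r e m₁ y₁ with hA
  have hnA : nm z₁ = d * A.natAbs := by
    rw [hm₁, nm_el he]
  have hA0 : A ≠ 0 := by
    intro h
    rw [h] at hnA
    simp only [Int.natAbs_zero, mul_zero] at hnA
    exact hz0 ((nm_eq_zero hns).1 hnA)
  have hAabs : 0 < |A| := abs_pos.2 hA0
  set s₀ : ℤ := -(d * m₁ * m₂ - r * m₁ * y₂ + (t - r) * m₂ * y₁ + e * y₁ * y₂) with hs₀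
  have key := key_id he hdet hA hs₀
  -- choose the residue
  set B : ℤ := |A| with hB
  set q : ℤ := (2 * s₀ - t + B) / (2 * B) with hq
  have h1 : (2 * B) * q + (2 * s₀ - t + B) % (2 * B) = 2 * s₀ - t + B := Int.mul_ediv_add_emod _ _
  have h2 : 0 ≤ (2 * s₀ - t + B) % (2 * B) := Int.emod_nonneg _ (by linarith)
  have h3 : (2 * s₀ - t + B) % (2 * B) < 2 * B := Int.emod_lt_of_pos _ (by linarith)
  obtain ⟨σ, hσ1, hσ2⟩ : ∃ σ : ℤ, B = σ * A ∧ σ ^ 2 = 1 := by
    rcases abs_cases A with h | h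
    · exact ⟨1, by rw [hB, h.1]; ring, by norm_num⟩
    · exact ⟨-1, by rw [hB, h.1]; ring, by norm_num⟩
  set k : ℤ := -(q * σ) with hk
  have hkk := key k
  set s' : ℤ := s₀ + k * A with hs'
  have h4 : 2 * s' - t = (2 * s₀ - t + B) % (2 * B) - B := by
    have h41 : k * A = -(q * B) := by rw [hk, hσ1]; ring
    rw [hs', h41]; linarith
  have h5 : (2 * s' - t) ^ 2 ≤ B ^ 2 := by
    rw [h4]
    apply sq_le_sq'
    · linarith
    · linarith
  set m₃ : ℤ := m₂ - k * m₁ with hm₃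
  set y₃ : ℤ := y₂ - k * y₁ with hy₃
  have hdet3 : m₁ * y₃ - m₃ * y₁ = 1 := by rw [hm₃, hy₃]; linarith
  -- the second vector is nonzero
  have h6 : el t c d r m₃ y₃ ≠ 0 := by
    intro h
    have hy : y₃ = 0 := congrArg QuadraticAlgebra.im h
    have hm : (d : ℤ) * m₃ - r * y₃ = 0 := congrArg QuadraticAlgebra.re h
    rw [hy, mul_zero, sub_zero] at hm
    have hm2 : m₃ = 0 := by
      rcases mul_eq_zero.1 hm with h | h
      · omega
      · exact h
    rw [hy, hm2] at hdet3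
    simp at hdet3
  have h7 := hmin _ h6 (el_lat d r _ _)
  rw [hnA, nm_el he] at h7
  have h8 : A.natAbs ≤ (QQ t d r e m₃ y₃).natAbs := Nat.le_of_mul_le_mul_left h7 hd
  set Cc : ℤ := QQ t d r e m₃ y₃ with hCc
  have h8' : B ≤ |Cc| := by
    rw [hB, Int.abs_eq_natAbs, Int.abs_eq_natAbs]
    exact_mod_cast h8
  -- the discriminant identity
  have hdisc : (2 * s' - t) ^ 2 - (t ^ 2 - 4 * c) = 4 * (A * Cc) := by
    linear_combination 4 * hkk
  have hBB : B * B ≤ |A * Cc| := by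
    rw [abs_mul]
    exact mul_le_mul_of_nonneg_left h8' hAabs.le
  have hBpos : 0 < B * B := mul_pos hAabs hAabs
  have hneg : A * Cc < 0 := by
    by_contra h
    push Not at h
    rw [abs_of_nonneg h] at hBB
    have hB2 : B ^ 2 = B * B := sq B
    linarith
  have hle : |A * Cc| ≤ t ^ 2 - 4 * c := by
    rw [abs_of_neg hneg]
    have := sq_nonneg (2 * s' - t)
    linarith
  have hC1 : 1 ≤ |Cc| := by
    have : Cc ≠ 0 := by
      intro h
      rw [h, mul_zero] at hneg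
      exact lt_irrefl _ hneg
    exact Int.one_le_abs this
  have hA1 : 1 ≤ |A| := Int.one_le_abs hA0
  rw [abs_mul] at hle
  have hAle : |A| ≤ t ^ 2 - 4 * c := (le_mul_of_one_le_right (abs_nonneg A) hC1).trans hle
  have hCle : |Cc| ≤ t ^ 2 - 4 * c := (le_mul_of_one_le_left (abs_nonneg Cc) hA1).trans hle
  rcases lt_or_gt_of_ne hA0 with hAn | hAp
  · -- use the second vector
    have hCp : 0 < Cc := by
      by_contra h
      push Not at h
      have := mul_nonneg_of_nonpos_of_nonpos hAn.le h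
      linarith
    refine ⟨m₃, y₃, -m₁, -y₁, by linarith, hCp, ?_⟩
    rw [abs_of_pos hCp] at hCle
    exact hCle
  · refine ⟨m₁, y₁, m₂, y₂, hdet, hAp, ?_⟩
    rw [abs_of_pos hAp] at hAle
    exact hAle

theorem red (hD : 4 * c < t ^ 2) (hns : ¬ IsSquare (t ^ 2 - 4 * c)) : S_RED t c := by
  refine ⟨(t ^ 2 - 4 * c).natAbs, ?_⟩
  intro d r hd hr
  obtain ⟨e, he⟩ := hr
  have hdz : (0 : ℤ) < d := by exact_mod_cast hd
  obtain ⟨n₁, x₁, n₂, x₂, hdet0, hpos0, hle0⟩ := exists_small hD hns hd he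
  -- choose the sign
  obtain ⟨m₁, y₁, m₂, y₂, hdet, hApos, hAle, htp⟩ : ∃ m₁ y₁ m₂ y₂ : ℤ,
      m₁ * y₂ - m₂ * y₁ = 1 ∧ 0 < QQ t d r e m₁ y₁ ∧ QQ t d r e m₁ y₁ ≤ t ^ 2 - 4 * c ∧
      tp (el t c d r m₁ y₁) := by
    have h1 : 0 < s1 (el t c d r n₁ x₁) * s2 (el t c d r n₁ x₁) := by
      rw [s1s2_el hD he]
      exact_mod_cast mul_pos hdz hpos0
    rcases mul_pos_iff.1 h1 with h2 | h2
    · exact ⟨n₁, x₁, n₂, x₂, hdet0, hpos0, hle0, h2⟩
    · refine ⟨-n₁, -x₁, -n₂, -x₂, by linarith, ?_, ?_, ?_⟩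
      · have : QQ t d r e (-n₁) (-x₁) = QQ t d r e n₁ x₁ := by unfold QQ; ring
        rw [this]; exact hpos0
      · have : QQ t d r e (-n₁) (-x₁) = QQ t d r e n₁ x₁ := by unfold QQ; ring
        rw [this]; exact hle0
      · have h3 : el t c d r (-n₁) (-x₁) = -el t c d r n₁ x₁ := by
          apply QuadraticAlgebra.ext
          · rw [QuadraticAlgebra.re_neg]
            show (d : ℤ) * -n₁ - r * -x₁ = -(d * n₁ - r * x₁)
            ring
          · rw [QuadraticAlgebra.im_neg]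
            rfl
        rw [h3]
        unfold tp
        rw [s1_neg, s2_neg]
        exact ⟨by linarith [h2.1], by linarith [h2.2]⟩
  set z₁ : Qd t c := el t c d r m₁ y₁ with hm₁
  have hz1 : lat d r z₁ := el_lat _ _ _ _
  set A : ℤ := QQ t d r e m₁ y₁ with hA
  have hnA : nm z₁ = d * A.natAbs := by
    rw [hm₁, nm_el he]
  set s₀ : ℤ := -(d * m₁ * m₂ - r * m₁ * y₂ + (t - r) * m₂ * y₁ + e * y₁ * y₂) with hs₀
  have key := key_id he hdet hA hs₀
  have hA2 : (A.natAbs : ℤ) = A := Int.natAbs_of_nonneg hApos.le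
  have hB : A.natAbs ≤ (t ^ 2 - 4 * c).natAbs := by
    omega
  -- the residue
  have hs1 : 0 ≤ s₀ % A := Int.emod_nonneg _ hApos.ne'
  have hs2 : s₀ % A < A := Int.emod_lt_of_pos _ hApos
  have hs3 : s₀ % A = s₀ + (-(s₀ / A)) * A := by
    have := Int.mul_ediv_add_emod s₀ A
    linarith
  have hlat : ∀ w : Qd t c, lat A.natAbs (s₀ % A) w ↔ A ∣ w.re + s₀ * w.im := by
    intro w
    unfold lat
    rw [hA2, hs3]
    have : w.re + (s₀ + -(s₀ / A) * A) * w.im = (w.re + s₀ * w.im) + A * (-(s₀ / A) * w.im) := by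
      ring
    rw [this, Int.dvd_add_left (Dvd.intro _ rfl)]
  -- multiplication formulas
  have hw₂ : ((A.natAbs : ℕ) : Qd t c) * el t c d r m₂ y₂ = z₁ * ⟨-s₀, 1⟩ := by
    apply QuadraticAlgebra.ext
    · rw [natCast_mul_re, hA2]
      rw [QuadraticAlgebra.re_mul, hm₁]
      show A * (d * m₂ - r * y₂) = (d * m₁ - r * y₁) * (-s₀) + -c * y₁ * 1
      rw [hs₀, hA]
      unfold QQ
      linear_combination (m₁ * y₂ - m₂ * y₁) * y₁ * he - c * y₁ * hdet
    · rw [natCast_mul_im, hA2]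
      rw [QuadraticAlgebra.im_mul, hm₁]
      show A * y₂ = (d * m₁ - r * y₁) * 1 + y₁ * (-s₀) + t * y₁ * 1
      rw [hs₀, hA]
      unfold QQ
      linear_combination ((d * m₁ - r * y₁) + t * y₁) * hdet
  refine ⟨A.natAbs, s₀ % A, z₁, by omega, hB, hs1, by rw [hA2]; exact hs2, ?_, htp, hnA, hz1, ?_, ?_⟩
  · rw [hA2, hs3, key]
    exact Dvd.intro _ rfl
  · intro w hw
    rw [hlat] at hw
    obtain ⟨a, ha⟩ := hw
    refine ⟨el t c d r (a * m₁ + w.im * m₂) (a * y₁ + w.im * y₂), el_lat _ _ _ _, ?_⟩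
    have h1 : el t c d r (a * m₁ + w.im * m₂) (a * y₁ + w.im * y₂) =
        (a : Qd t c) * z₁ + (w.im : Qd t c) * el t c d r m₂ y₂ := by
      rw [el_comb, ← hm₁]
    have h2 : w = (a : Qd t c) * ((A.natAbs : ℕ) : Qd t c) + (w.im : Qd t c) * ⟨-s₀, 1⟩ := by
      apply QuadraticAlgebra.ext
      · rw [comb_re, hA2]; linarith
      · rw [comb_im]
    rw [h1]
    conv_rhs => rw [h2]
    linear_combination (w.im : Qd t c) * hw₂
  · intro z hz
    obtain ⟨m, hm⟩ := eq_el hz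
    -- z = a z₁ + b z₂
    refine ⟨((m * y₂ - z.im * m₂ : ℤ) : Qd t c) * ((A.natAbs : ℕ) : Qd t c) +
      ((m₁ * z.im - y₁ * m : ℤ) : Qd t c) * ⟨-s₀, 1⟩, ?_, ?_⟩
    · rw [hlat, comb_re, comb_im, hA2]
      exact ⟨m * y₂ - z.im * m₂, by ring⟩
    · have h1 : z = ((m * y₂ - z.im * m₂ : ℤ) : Qd t c) * z₁ +
          ((m₁ * z.im - y₁ * m : ℤ) : Qd t c) * el t c d r m₂ y₂ := by
        conv_rhs => rw [hm₁]
        rw [← el_comb]
        conv_lhs => rw [hm]
        congr 1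
        · linear_combination -m * hdet
        · linear_combination -z.im * hdet
      conv_lhs => rw [h1]
      linear_combination ((m₁ * z.im - y₁ * m : ℤ) : Qd t c) * hw₂

end Pool.Agent.W880.GR
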